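import Mathlib
import Pool.Agent.Helper36.SPR.St

/-!
# Project SPR, module ND: the sum of `1/p` over the primes with `ord_p(2) ≥ p^(1/3)` diverges
-/

set_option autoImplicit false

namespace Pool.Agent.Helper85.SPR

open Pool.Agent.Helper36.SPR Finset

/-- bad odd primes: `ord_p(2) < p^(1/3)` -/
def Qb (p : ℕ) : Prop := p.Prime ∧ 2 < p ∧ (orderOf (2 : ZMod p) : ℝ) < (p : ℝ) ^ (1 / 3 : ℝ)

theorem card_primeFactors_le {M e : ℕ} (hM : M ≠ 0) (h : M ≤ 2 ^ e) : M.primeFactors.card ≤ e := by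
  have h1 : ∏ p ∈ M.primeFactors, p ∣ M := Nat.prod_primeFactors_dvd M
  have h2 : 2 ^ M.primeFactors.card ≤ ∏ p ∈ M.primeFactors, p := by
    rw [← prod_const]
    exact prod_le_prod' fun p hp => (Nat.prime_of_mem_primeFactors hp).two_le
  have h3 : 2 ^ M.primeFactors.card ≤ 2 ^ e :=
    h2.trans ((Nat.le_of_dvd (Nat.pos_of_ne_zero hM) h1).trans h)
  exact (Nat.pow_le_pow_iff_right (by norm_num)).1 h3

theorem dvd_pow_order {q : ℕ} (hq : q.Prime) (h2 : 2 < q) :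
    0 < orderOf (2 : ZMod q) ∧ q ∣ 2 ^ orderOf (2 : ZMod q) - 1 := by
  haveI : Fact q.Prime := ⟨hq⟩
  have hne : (2 : ZMod q) ≠ 0 := by
    intro h
    have h' : ((2 : ℕ) : ZMod q) = 0 := by exact_mod_cast h
    rw [ZMod.natCast_eq_zero_iff] at h'
    exact absurd (Nat.le_of_dvd (by norm_num) h') (by omega)
  have h1 : (2 : ZMod q) ^ (q - 1) = 1 := ZMod.pow_card_sub_one_eq_one hne
  have hd : orderOf (2 : ZMod q) ∣ q - 1 := orderOf_dvd_of_pow_eq_one h1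
  have hpos : 0 < orderOf (2 : ZMod q) := Nat.pos_of_dvd_of_pos hd (by omega)
  refine ⟨hpos, ?_⟩
  have h3 : (2 : ZMod q) ^ orderOf (2 : ZMod q) = 1 := pow_orderOf_eq_one _
  rw [← ZMod.natCast_eq_zero_iff]
  rw [Nat.cast_sub Nat.one_le_two_pow]
  push_cast
  rw [h3, sub_self]

theorem count_le (N : ℕ) [DecidablePred Qb] :
    (((range (N + 1)).filter Qb).card : ℝ) ≤ (N : ℝ) ^ (2 / 3 : ℝ) := by
  set m : ℕ := ⌊(N : ℝ) ^ (1 / 3 : ℝ)⌋₊ with hm
  set M : ℕ := ∏ t ∈ Icc 1 m, (2 ^ t - 1) with hMd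
  have hM0 : M ≠ 0 := by
    rw [hMd]
    refine prod_ne_zero_iff.2 fun t ht => ?_
    have : 1 ≤ t := (mem_Icc.1 ht).1
    have h2 : 2 ^ 1 ≤ 2 ^ t := Nat.pow_le_pow_right (by norm_num) this
    omega
  have hMle : M ≤ 2 ^ (m ^ 2) := by
    have h1 : M ≤ ∏ t ∈ Icc 1 m, 2 ^ t := prod_le_prod' fun t _ => Nat.sub_le _ _
    have h2 : ∏ t ∈ Icc 1 m, 2 ^ t = 2 ^ (∑ t ∈ Icc 1 m, t) := by
      rw [prod_pow_eq_pow_sum]
    have h3 : ∑ t ∈ Icc 1 m, t ≤ m ^ 2 := by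
      calc ∑ t ∈ Icc 1 m, t ≤ ∑ t ∈ Icc 1 m, m := sum_le_sum fun t ht => (mem_Icc.1 ht).2
        _ = m ^ 2 := by simp [sq]
    rw [h2] at h1
    exact h1.trans (Nat.pow_le_pow_right (by norm_num) h3)
  have hsub : (range (N + 1)).filter Qb ⊆ M.primeFactors := by
    intro q hq
    obtain ⟨hqN, hqp, hq2, hqo⟩ := mem_filter.1 hq
    obtain ⟨hpos, hdvd⟩ := dvd_pow_order hqp hq2
    have hqN' : (q : ℝ) ≤ N := by
      exact_mod_cast Nat.lt_succ_iff.1 (mem_range.1 hqN)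
    have hle : (orderOf (2 : ZMod q) : ℝ) ≤ (N : ℝ) ^ (1 / 3 : ℝ) :=
      hqo.le.trans (Real.rpow_le_rpow (Nat.cast_nonneg q) hqN' (by norm_num))
    have hfl : orderOf (2 : ZMod q) ≤ m := Nat.le_floor hle
    rw [Nat.mem_primeFactors]
    refine ⟨hqp, ?_, hM0⟩
    exact hdvd.trans (dvd_prod_of_mem (fun t => 2 ^ t - 1) (mem_Icc.2 ⟨hpos, hfl⟩))
  have hcard : ((range (N + 1)).filter Qb).card ≤ m ^ 2 :=
    (card_le_card hsub).trans (card_primeFactors_le hM0 hMle)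
  have hmle : (m : ℝ) ≤ (N : ℝ) ^ (1 / 3 : ℝ) := Nat.floor_le (Real.rpow_nonneg (Nat.cast_nonneg N) _)
  calc (((range (N + 1)).filter Qb).card : ℝ) ≤ ((m ^ 2 : ℕ) : ℝ) := by exact_mod_cast hcard
    _ = (m : ℝ) ^ 2 := by push_cast; ring
    _ ≤ ((N : ℝ) ^ (1 / 3 : ℝ)) ^ 2 := pow_le_pow_left₀ (Nat.cast_nonneg m) hmle 2
    _ = (N : ℝ) ^ (2 / 3 : ℝ) := by
        rw [← Real.rpow_natCast, ← Real.rpow_mul (Nat.cast_nonneg N)]
        norm_num

/-- the sum of `1/p` over finitely many bad primes is bounded -/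
theorem bad_bound [DecidablePred Qb] : ∃ C : ℝ, 0 ≤ C ∧ ∀ s : Finset ℕ, (∀ p ∈ s, Qb p) →
    ∑ p ∈ s, (1 : ℝ) / p ≤ C := by
  have hsum : Summable (fun k : ℕ => 1 / (k : ℝ) ^ (3 / 2 : ℝ)) :=
    Real.summable_one_div_nat_rpow.2 (by norm_num)
  refine ⟨∑' k : ℕ, 1 / (k : ℝ) ^ (3 / 2 : ℝ), tsum_nonneg fun k => by positivity, ?_⟩
  intro s hs
  set κ : ℕ → ℕ := fun p => ((range (p + 1)).filter Qb).card with hκ
  have hmono : ∀ p q : ℕ, Qb q → p < q → κ p < κ q := by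
    intro p q hq hpq
    refine card_lt_card ?_
    rw [ssubset_iff_of_subset]
    · refine ⟨q, mem_filter.2 ⟨mem_range.2 (by omega), hq⟩, ?_⟩
      intro h
      have := mem_range.1 (mem_filter.1 h).1
      omega
    · intro x hx
      obtain ⟨h1, h2⟩ := mem_filter.1 hx
      exact mem_filter.2 ⟨mem_range.2 (by have := mem_range.1 h1; omega), h2⟩
  have hinj : Set.InjOn κ (s : Set ℕ) := by
    intro p hp q hq hpq
    by_contra hne
    rcases lt_or_gt_of_ne hne with h | h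
    · exact absurd hpq (hmono p q (hs q hq) h).ne
    · exact absurd hpq (hmono q p (hs p hp) h).ne'
  have hterm : ∀ p ∈ s, (1 : ℝ) / p ≤ 1 / (κ p : ℝ) ^ (3 / 2 : ℝ) := by
    intro p hp
    have hQ := hs p hp
    have hk1 : 1 ≤ κ p := card_pos.2 ⟨p, mem_filter.2 ⟨mem_range.2 (by omega), hQ⟩⟩
    have hk0 : (0 : ℝ) < κ p := by exact_mod_cast hk1
    have hle : (κ p : ℝ) ≤ (p : ℝ) ^ (2 / 3 : ℝ) := count_le p
    have h1 : (κ p : ℝ) ^ (3 / 2 : ℝ) ≤ p := by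
      calc (κ p : ℝ) ^ (3 / 2 : ℝ) ≤ ((p : ℝ) ^ (2 / 3 : ℝ)) ^ (3 / 2 : ℝ) :=
            Real.rpow_le_rpow hk0.le hle (by norm_num)
        _ = p := by
            rw [← Real.rpow_mul (Nat.cast_nonneg p)]
            norm_num
    exact one_div_le_one_div_of_le (Real.rpow_pos_of_pos hk0 _) h1
  calc ∑ p ∈ s, (1 : ℝ) / p ≤ ∑ p ∈ s, 1 / (κ p : ℝ) ^ (3 / 2 : ℝ) := sum_le_sum hterm
    _ = ∑ k ∈ s.image κ, 1 / (k : ℝ) ^ (3 / 2 : ℝ) := by
        rw [sum_image (fun p hp q hq h => hinj hp hq h)]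
    _ ≤ ∑' k : ℕ, 1 / (k : ℝ) ^ (3 / 2 : ℝ) :=
        hsum.sum_le_tsum _ fun k _ => by positivity

theorem hND : StND := by
  classical
  intro y B
  by_contra hcon
  push Not at hcon
  obtain ⟨C, hC0, hC⟩ := bad_bound
  set G : ℕ → Prop := fun p => p.Prime ∧ y ≤ p ∧ 2 < p ∧
    (p : ℝ) ^ (1 / 3 : ℝ) ≤ orderOf (2 : ZMod p) with hG
  have hbound : ∀ u : Finset ℕ, ∑ n ∈ u, Set.indicator {p : ℕ | p.Prime}
      (fun n : ℕ => (1 : ℝ) / n) n ≤ B + C + ∑ n ∈ range (y + 3), (1 : ℝ) / n := by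
    intro u
    have h0 : ∑ n ∈ u, Set.indicator {p : ℕ | p.Prime} (fun n : ℕ => (1 : ℝ) / n) n
        = ∑ n ∈ u.filter Nat.Prime, (1 : ℝ) / n := by
      rw [sum_filter]
      refine sum_congr rfl fun n _ => ?_
      by_cases h : n.Prime
      · simp [Set.indicator, h]
      · simp [Set.indicator, h]
    rw [h0]
    set v := u.filter Nat.Prime with hv
    have h1 : ∑ n ∈ v, (1 : ℝ) / n = ∑ n ∈ v.filter G, (1 : ℝ) / n
        + ∑ n ∈ v.filter (fun n => ¬ G n), (1 : ℝ) / n :=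
      (sum_filter_add_sum_filter_not v G _).symm
    have h2 : ∑ n ∈ v.filter (fun n => ¬ G n), (1 : ℝ) / n
        = ∑ n ∈ (v.filter (fun n => ¬ G n)).filter Qb, (1 : ℝ) / n
        + ∑ n ∈ (v.filter (fun n => ¬ G n)).filter (fun n => ¬ Qb n), (1 : ℝ) / n :=
      (sum_filter_add_sum_filter_not _ Qb _).symm
    have h3 : ∑ n ∈ v.filter G, (1 : ℝ) / n ≤ B :=
      (hcon (v.filter G) (fun p hp => (mem_filter.1 hp).2)).le
    have h4 : ∑ n ∈ (v.filter (fun n => ¬ G n)).filter Qb, (1 : ℝ) / n ≤ C :=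
      hC _ fun p hp => (mem_filter.1 hp).2
    have h5 : ∑ n ∈ (v.filter (fun n => ¬ G n)).filter (fun n => ¬ Qb n), (1 : ℝ) / n
        ≤ ∑ n ∈ range (y + 3), (1 : ℝ) / n := by
      refine sum_le_sum_of_subset_of_nonneg ?_ fun n _ _ => by positivity
      intro n hn
      obtain ⟨hn1, hn2⟩ := mem_filter.1 hn
      obtain ⟨hn3, hn4⟩ := mem_filter.1 hn1
      have hnp : n.Prime := (mem_filter.1 (hv ▸ hn3)).2
      rw [mem_range]
      by_contra hge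
      push Not at hge
      have hy : y ≤ n := by omega
      have h2n : 2 < n := by omega
      rcases le_or_gt ((n : ℝ) ^ (1 / 3 : ℝ)) (orderOf (2 : ZMod n) : ℝ) with h | h
      · exact hn4 ⟨hnp, hy, h2n, h⟩
      · exact hn2 ⟨hnp, h2n, h⟩
    linarith
  have hsum : Summable (Set.indicator {p : ℕ | p.Prime} (fun n : ℕ => (1 : ℝ) / n)) := by
    refine summable_of_sum_le (fun n => ?_) hbound
    exact Set.indicator_nonneg (fun n _ => by positivity) n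
  exact not_summable_one_div_on_primes hsum

end Pool.Agent.Helper85.SPR
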